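import Pool.Agent.H.MP_221c76_co.D

set_option autoImplicit false

namespace Pool.Agent.Results.MP_221c76_co.Family

open Pool.Agent.H.MP_221c76_co

theorem result : ∃ P : Set MG, P.Nonempty ∧
    (∀ G ∈ P, ∀ v : G.V, ∃ e : G.E, v ∈ G.ends e) ∧
    (∀ H : MG,
      (∀ C ∈ circuits P H, ∀ D ∈ circuits P H, ¬ C ⊂ D) ∧
      (∀ C ∈ circuits P H, ∀ D ∈ circuits P H, C ≠ D → ∀ e ∈ C ∩ D,
        ∃ B ∈ circuits P H, B ⊆ (C ∪ D) \ {e})) ∧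
    (∀ G ∈ P, ∀ H : MG, Homeo G H → H ∈ P) ∧
    ∃ g : ℕ → MG, (∀ i, g i ∈ P) ∧
      ∀ i j, i ≠ j → ¬ Relation.EqvGen Homeo (g i) (g j) := by
  refine ⟨{K | Mem K}, ⟨gk 0, mem_gk 0⟩, fun G hG => hG.1, fun H => ⟨?_, ?_⟩,
    fun G hG H h => (homeo_inv h).1.1 hG, gk, mem_gk, ?_⟩
  · intro C hC D hD h
    exact h.ne (good_eq ((circ_iff H D).1 hD) ((circ_iff H C).1 hC) h.subset)
  · intro C hC D hD hne e _
    obtain ⟨B, hB, h⟩ := good_elim ((circ_iff H C).1 hC) ((circ_iff H D).1 hD) hne e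
    exact ⟨B, (circ_iff H B).2 hB, h⟩
  · intro i j hij h
    rcases lt_or_gt_of_ne hij with h1 | h1
    · exact not_eqv h1 h
    · exact not_eqv h1 (Relation.EqvGen.symm _ _ h)

end Pool.Agent.Results.MP_221c76_co.Family
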